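import Pool.Agent.H3.SparsePST

set_option autoImplicit false

namespace Pool.Agent.Results.MP_8f05cb_co.Asymptotic

open Classical in
/-- `G` admits perfect state transfer between two distinct vertices at some time. -/
def HasPST {n : ℕ} (G : SimpleGraph (Fin n)) : Prop :=
  ∃ u v : Fin n, u ≠ v ∧ ∃ (t : ℝ) (γ : ℂ), ‖γ‖ = 1 ∧
    (NormedSpace.exp ((Complex.I * (t : ℂ)) • G.adjMatrix ℂ)).mulVec (Pi.single u 1) =
      γ • Pi.single v 1

/-- The least number of edges of a connected graph on `n` vertices admitting perfect state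
transfer (infinite if there is none). -/
noncomputable def m (n : ℕ) : ℕ∞ :=
  ⨅ (G : SimpleGraph (Fin n)) (_ : G.Connected ∧ HasPST G), (G.edgeSet.ncard : ℕ∞)

open Pool.Agent.H3.SparsePST Pool.Agent.H3.PST in
theorem result : ∀ n : ℕ, 1944 ≤ n →
    ((n - 1 : ℕ) : ℕ∞) ≤ m n ∧ m n ≤ ((n + 70 * Nat.sqrt n : ℕ) : ℕ∞) := by
  classical
  intro n hn
  constructor
  · refine le_iInf₂ fun G hG => ?_
    have := hG.1.card_vert_le_card_edgeSet_add_one
    rw [Nat.card_eq_fintype_card, Fintype.card_fin, Nat.card_coe_set_eq] at this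
    exact_mod_cast (by omega : n - 1 ≤ G.edgeSet.ncard)
  · obtain ⟨s, H, hs, hH, e1, e2⟩ := choose_s n hn
    obtain ⟨h, hh, hsum⟩ := exists_h (2 * s) (3 * s) H hH
    have c1 := card_V s h hh
    have c2 := card_E s h hh
    let e : Fin n ≃ V s h := (Fintype.equivFinOfCardEq (by omega)).symm
    have hc : ((G s h).comap e).Connected :=
      (SimpleGraph.Iso.comap e (G s h)).connected_iff.2 (connected s h hs)
    have hp : HasPST ((G s h).comap e) := by
      refine ⟨e.symm (.inl true), e.symm (.inl false), fun h => by simpa using h,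
        Real.pi / Real.sqrt (2 * s), -1, by simp, ?_⟩
      funext a
      have := congrFun (pst s h hs hh) (e a)
      rw [Matrix.mulVec_single_one] at this ⊢
      simp only [Matrix.col_apply] at this ⊢
      rw [exp_comap, e.apply_symm_apply, this]
      simp only [Pi.smul_apply, Pi.single_apply, Equiv.eq_symm_apply]
      split_ifs <;> simp
    refine (iInf₂_le _ ⟨hc, hp⟩).trans ?_
    have hE : ((G s h).comap e).edgeSet.ncard = (G s h).edgeFinset.card := by
      rw [← (SimpleGraph.Iso.comap e (G s h)).card_edgeFinset_eq, ← SimpleGraph.coe_edgeFinset,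
        Set.ncard_coe_finset]
    rw [hE]
    exact_mod_cast (by omega : (G s h).edgeFinset.card ≤ n + 70 * Nat.sqrt n)

end Pool.Agent.Results.MP_8f05cb_co.Asymptotic
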